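import Pool.Agent.Run7.h284.PS.ListMain

/-!
# SetIntersection: the conjectured space `N ^ 2 / T` for memories of bounded depth

A family of `2 k` sets of total size at most `N`, in two halves `X` and `Y`, is preprocessed. The
query `(i, j)` asks for the list of the elements of the intersection of `X i` and `Y j`. The data
structures (`SI.DS`) are data structures in the cell probe model: the memory has cells of `w` bits,
the queries read cells adaptively, the computation is free and not uniform, and everything may be
random; every query is answered correctly with at most `C * (T + op)` probes with probability at
least `1 / 2`.

A cell is *joint* if some query `(i, j)` may read it and its contents depends on both `X i` and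
`Y j`. All other cells, for instance arbitrary functions of one of the two halves, are free: their
number is unlimited, and their contents is arbitrary. Only the joint cells are restricted: every bit
of a joint cell is computed by a circuit of depth at most `d` with at most `2 ^ κ ≥ N` gates (AND
and OR of unbounded fan-in, NOT) whose inputs are arbitrary functions of single sets of the family.
Then the number `s` of joint cells satisfies

  `N ^ 2 ≤ 10 ^ 21 (C w) ^ 5 T · s · w ^ 2 (72 κ + 24 d + 24) ^ (2 d + 2)`.

So for circuits of constant depth and quasi-polynomial size and words of polylogarithmic length the
space is `Ω~(N ^ 2 / T)`, the full conjectured bound, for all `T ≤ N / polylog N`. For the families in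
the proof this is tight: the tables of the bits which say whether the intersection of `X i`, `Y j`
and a dyadic interval of the universe is nonempty are such memories (of depth two), and give the
lists with `O(1 + op log N)` probes.

Proof. The sets are random. Fix two independent families `F` and `F'`. The contents of a cell at `F`
is computed from its contents at the three families in which the set `X i`, the set `Y j`, or both
are taken from `F'`: if the contents with `Y j` replaced and with both replaced agree, take the
contents with `X i` replaced, and otherwise the contents with `Y j` replaced. This is a function of a
word which depends on `X i` and a word which depends on `Y j`, so that a query is simulated by a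
short communication protocol, which cannot list the intersection, by the inequality of the starting
library `W959`; also not if it may be corrected at a few probes. If the simulated contents is wrong,
then the cell is sensitive to both sets at one of three pairs of families which are obtained from
`(F, F')` by an exchange of sets, and have the same distribution. So for each of the `k ^ 2` pairs
`(i, j)` of order `T / (C w)` joint cells are sensitive to both sets, on the average. On the other
hand, exchange the sets of `F` and `F'` at random: the contents of a cell becomes a circuit of
bounded depth in random bits, and the number of sets to which it is sensitive is the sensitivity of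
this circuit; its second moment is at most `(72 κ + 24 d + 24) ^ (2 d + 2)` for each bit, by the
switching lemma for decision trees (starting library `TH163.AC3`).
-/

set_option autoImplicit false

namespace Pool.Agent.Results.MP_f326ae_lc.BoundedDepthMemory

open Pool.Agent.H284.PS.SI

/-- For all `N`, `w` and all query times `C * (T + op)` with `10 ^ 10 * (C * w) ^ 2 * T ≤ N` there are
`k` and `u` with `2 * k * u ≤ N` such that every random data structure for families of `2 k` subsets
of a universe with `u` elements which lists the intersections in this time, and has at most `s`
joint cells, all of whose bits are computed by circuits of depth at most `d` with at most `2 ^ κ`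
gates from arbitrary functions of single sets, satisfies
`N ^ 2 ≤ 10 ^ 21 * (C * w) ^ 5 * T * s * w ^ 2 * (72 κ + 24 d + 24) ^ (2 d + 2)`. -/
theorem result (N w : ℕ) (C T : ℝ) (hw : 1 ≤ w) (hC : 1 ≤ C) (hT : 1 ≤ T)
    (hN : 10 ^ 10 * (C * w) ^ 2 * T ≤ N) :
    ∃ k u : ℕ, 2 * k * u ≤ N ∧ ∀ (S : ℕ) (Ω : Type) [Fintype Ω] (p : Ω → ℝ)
      (D : Ω → DS k u w S (Finset (Fin u))), SolvesListing p D C T N →
      ∀ d κ s : ℕ, N ≤ 2 ^ κ → (∀ ω, (D ω).joint.card ≤ s) →
        (∀ ω, (D ω).JointBoundedDepth d (2 ^ κ)) →
        (N : ℝ) ^ 2 ≤ 10 ^ 21 * (C ^ 5 * w ^ 5) * T *
          (s * ((w : ℝ) ^ 2 * (72 * κ + 24 * d + 24 : ℝ) ^ (2 * d + 2))) := by
  obtain ⟨k, u, h1, h2⟩ := listing N w C T hw hC hT hN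
  exact ⟨k, u, h1, fun S Ω _ p D hD => (h2 S Ω p D hD).2⟩

end Pool.Agent.Results.MP_f326ae_lc.BoundedDepthMemory
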