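import Mathlib
import Pool.Agent.Run7.h412.EC.SI

/-!
# Set intersection: proofs of disjointness do not help against entanglement

A family of `k` sets of total size at most `N` is preprocessed, and it has to be verified that the sets
number `i` and `j` are *disjoint*, with the help of a prover: a proof is one of `W` strings (of `log₂ W`
bits), it may depend in an arbitrary way on the family and on `i` and `j`, and reading it is free. Then
`T` cells are read adaptively, and the proof is accepted or not. If the sets are disjoint then some
proof must be accepted with probability at least `1 / 2 + δ`, and if they intersect then every proof is
accepted with probability at most `1 / 2 - δ` (`Verifies`). The random bits may be used for the memory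
and for the verification; only the prover does not know them. (That the sets intersect has a simple
proof, namely a common element.)

For `W = 1` these are the usual randomised data structures. If the proof names the cells which are to
be read (`W = s ^ T`) and there is no randomness, then these are the nondeterministic data structures
or certificates (Yin 2008, Wang and Yin 2014). In general these are the data structures with
Merlin-Arthur proofs, as in the theory of annotated data streams.

The memory is as in the starting result `EmptinessEntanglement`: *arbitrary*. The contents of each of the
`s` cells of `w` bits is described by a blackboard protocol with one player for each set of the family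
(every function of the family can be described like this). A cell *entangles* two sets if both of
them write on the blackboard, and together more than `b` bits.

Theorem: if the cells entangle in the expectation at most `R` pairs of sets then

  `δ ^ 6 * N ^ 2 ≤ 10 ^ 17 * (b * T) ^ 2 * (⌊log₂ W⌋ + 1) ^ 3 * R`.

So for constant `δ` and for probes and proofs of polylogarithmic length, space `N ^ (2 - ε)` is
impossible for all data structures each cell of which entangles only `N ^ o(1)` pairs of sets (on the
average over the cells), even if disjointness need not be decided but only verified with the help of
a proof. In particular all nondeterministic data structures are covered.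

Proof. The verification is repeated `K` times with independent memories, `K` of the order
`(log W + 1) / δ ^ 2`, and the majority decides: then (Chernoff) a false proof is accepted with
probability at most `1 / (1000 W)`. The hard families are random: each set is a random subset of a
universe with `u = m ^ 2` elements, with density `1 / m`, where `m` is of the order `b K T`. For every
fixed proof and every pair of sets, the families on which the proof is accepted without a probe of
an entangled cell, and for which the sets are disjoint, have measure at most `0.9634` times the measure
of all families on which the proof is accepted without such a probe, up to an error of the order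
`2 ^ (- K)` (corruption; the two-point inequality and the bound for trees are those of the starting
files). We add this over all `W` proofs. The false acceptances sum up to a small number (here the
families of too large total size have to be controlled as well: by an exponential moment they have
measure at most `2 ^ (- m)`, which is much smaller than `1 / W`). Hence the correct acceptances
without entangled probes do so as well, but every disjoint pair has a proof. So each pair of sets is
entangled by one of the `K` copies with constant probability.
-/

set_option autoImplicit false

namespace Pool.Agent.Results.MP_f326ae_lc.EntangledCertificates

open Pool.Agent.Run7.h412.EC.SI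

/-- For all `N`, `w ≤ b`, `T`, `W`, `δ` with `10 ^ 7 * b * T * (⌊log₂ W⌋ + 1) ≤ δ ^ 2 * N` there are
`k` (a number of sets) and `u` (the size of the universe) such that every random data structure with
memory of `w`-bit cells which verifies disjointness for all families of total size at most `N` with `T`
probes, `W` proofs and advantage `δ`, and which entangles in the expectation at most `R` pairs of sets,
satisfies `δ ^ 6 * N ^ 2 ≤ 10 ^ 17 * (b * T) ^ 2 * (⌊log₂ W⌋ + 1) ^ 3 * R`. -/
theorem result (N w b T W : ℕ) (hb : 1 ≤ b) (hwb : w ≤ b) (hT : 1 ≤ T) (δ : ℝ) (hδ : 0 < δ)
    (hδ2 : δ ≤ 1 / 2) (hN : 10 ^ 7 * (b * T) * ((Nat.log 2 W : ℝ) + 1) ≤ δ ^ 2 * N) :
    ∃ k u : ℕ, δ ^ 4 * (u : ℝ) ≤ (11200 * (b * T) * ((Nat.log 2 W : ℝ) + 1)) ^ 2 ∧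
      ∀ (s : ℕ) (Ω : Type) [Fintype Ω] (p : Ω → ℝ) (D : Ω → DS k u w s W), Verifies p D T N δ →
        ∀ R : ℝ, (∀ F : Fin k → Finset (Fin u), ∑ l, (F l).card ≤ N →
          ∑ ω, p ω * ∑ c, (((D ω).entangled b F c).card : ℝ) ≤ R) →
        δ ^ 6 * (N : ℝ) ^ 2 ≤ 10 ^ 17 * (b * T) ^ 2 * ((Nat.log 2 W : ℝ) + 1) ^ 3 * R :=
  main N w b T W hb hwb hT δ hδ hδ2 hN

end Pool.Agent.Results.MP_f326ae_lc.EntangledCertificates
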