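import Mathlib
import Pool.Agent.Run7.h412.MA.Emp

/-!
# Set intersection queries: proofs of emptiness do not help tables (Merlin-Arthur data structures)

A family of `2 k` subsets of a universe with `u` elements, of total size at most `N`, is
preprocessed: the sets `X i` of the first half and the sets `Y j` of the second half. It has to be
verified that `X i` and `Y j` are disjoint, with the help of a prover: a proof is one of `W` strings (of
`log₂ W` bits), it may depend in an arbitrary way on the family and on `i`, `j`, and reading it is free.
Then `t` cells are read adaptively, and the proof is accepted or not. If `X i` and `Y j` are disjoint
then some proof must be accepted with probability at least `1 / 2 + δ`, and if they intersect then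
every proof is accepted with probability at most `1 / 2 - δ` (`EVerifies`). The random bits may be used
for the memory and for the verification; only the prover does not know them. A structure which
lists the intersections in time `C (T + op)` also does this, without any proof, in time `C T`: stop after
this time and say that the sets intersect. (That two sets intersect has a simple proof, namely a
common element.)

If the proof names the cells which are to be read (`W = c ^ t`, where `c` is the number of all cells)
and there is no randomness, then these are the nondeterministic data structures or certificates (Yin
2008, Wang and Yin 2014). In general these are the data structures with Merlin-Arthur proofs, as in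
the theory of annotated data streams.

The memory (`EProofDS`) is of the same kind as in the starting result `EmptinessTables`. The content
of every cell (an element of any set `Γ`) is an arbitrary function of `r` bits and of the `d` bits of a
protocol of two players, who know one half of the family each. Every one of the `r` bits is the
exclusive or of

* the answers (do the sets intersect?) to the queries in any set `P` of pairs `(i, j)`,
* an arbitrary function of the first half of the family,
* an arbitrary function of the second half of the family.

Only the `s` cells in which answers enter count as space; all cells which are computed by protocols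
are free. We show

  `δ ^ 10 * N ^ 2 ≤ 10 ^ 20 * ((r + d) * t) ^ 4 * (⌊log₂ W⌋ + 1) ^ 5 * (r * s + 1)`.

So (for constant `δ`) space `N ^ (2 - ε)` requires that `(r + d) t` or `log₂ W` is at least about
`N ^ (ε / 10)`, and polylogarithmic query time requires space `Ω~(N ^ 2)`, as in the conjecture, even
if emptiness is not decided but only verified with the help of proofs of polylogarithmic length. For `W = 1` we get the bound of
`EmptinessTables` up to a constant. Note that the proofs are really helpful for a single pair of
sets: the two-party Merlin-Arthur complexity of disjointness of sets of `m` elements is `O~(√m)`.

Proof. The verification is repeated `K` times with independent memories, `K` of the order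
`(log W + 1) / δ ^ 2`, and the majority decides: then (Chernoff) every false proof is accepted with
probability at most `1 / (2000 W)`. The hard families are those of `EmptinessTables`, with parameters
for decision trees of depth `2 K t`, twice the depth which is used. For all pairs `(i, j)` but
`K s q ^ 2`, `q = 200 K t`, and for every fixed proof, the families on which the proof is accepted and the
sets are disjoint have measure at most `0.9634` times the measure of all families on which the proof
is accepted, up to an error `2 ^ (- K t) / 1000` (corruption, `Pool.Agent.Run7.h412.MA.Corr`). We add
this over all `W` proofs. Since the false acceptances sum up to a small number, the correct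
acceptances do so as well, but every family for which the sets are disjoint has a proof, and these
families have measure at least `0.366`.
-/

set_option autoImplicit false

namespace Pool.Agent.Results.MP_f326ae_lc.ProofsForTables

open Pool.Agent.Run7.h412.MA

/-- For all `N`, `W`, `r, t ≥ 1`, `d` and `0 < δ ≤ 1 / 2` there are `k ≤ N / (400 (r + d) t)` and
`u ≤ 10 ^ 9 ((r + d) t) ^ 2 (⌊log₂ W⌋ + 1) ^ 2 / δ ^ 4` such that every random data structure, in which
the content of every cell is an arbitrary function of `r` exclusive ors of emptiness answers, of a
function of the first half and of a function of the second half, and of the `d` bits of a protocol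
between the two halves, in which answers enter at most `s` cells, and which verifies emptiness for all
families of `2 k` subsets of a universe with `u` elements of total size at most `N` with `W` possible
proofs, `t` probes and advantage `δ`, satisfies
`δ ^ 10 * N ^ 2 ≤ 10 ^ 20 * ((r + d) * t) ^ 4 * (⌊log₂ W⌋ + 1) ^ 5 * (r * s + 1)`. -/
theorem result (N r d t W : ℕ) (hr : 1 ≤ r) (ht : 1 ≤ t) (δ : ℝ) (hδ : 0 < δ)
    (hδ2 : δ ≤ 1 / 2) :
    ∃ k u : ℕ, 400 * ((r + d) * t) * k ≤ N ∧
      δ ^ 4 * (u : ℝ) ≤ 10 ^ 9 * (((r : ℝ) + d) * t) ^ 2 * ((Nat.log 2 W : ℝ) + 1) ^ 2 ∧
      ∀ (c s : ℕ) (Γ Ω : Type) [Fintype Ω] (p : Ω → ℝ) (D : Ω → EProofDS k u c r d W Γ),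
        (∀ ω, (D ω).space ≤ s) → EVerifies N p D t δ →
        δ ^ 10 * (N : ℝ) ^ 2 ≤
          10 ^ 20 * (((r : ℝ) + d) * t) ^ 4 * ((Nat.log 2 W : ℝ) + 1) ^ 5 * (r * s + 1) :=
  e_cells N t r d W ht hr δ hδ hδ2

end Pool.Agent.Results.MP_f326ae_lc.ProofsForTables
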