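import Pool.Agent.Run7.h284.PS.ListMain

/-!
# SetIntersection: space times pair sensitivity is `N ^ 2 / T` for every data structure

A family of `2 k` sets of total size at most `N`, in two halves `X` and `Y`, is preprocessed. The
query `(i, j)` asks for the list of the elements of the intersection of `X i` and `Y j`. The data
structures (`SI.DS`) are *all* data structures in the cell probe model: the memory has `S` cells of
`w` bits with arbitrary contents, the queries read cells adaptively, the computation is free and not
uniform, and everything may be random; every query is answered correctly with at most `C * (T + op)`
probes with probability at least `1 / 2`.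

A cell is *sensitive* to the pair `(i, j)` at the families `X, Y, X', Y'` if the query `(i, j)` may
read it and its contents on `X, Y` changes if `X i` is replaced by `X' i`, and also if instead `Y j`
is replaced by `Y' j`.

Theorem: the expected total number of pairs to which the cells are sensitive is, for some families,
at least `N ^ 2 / (10 ^ 21 (C w) ^ 5 T)`.

So the number of cells is at least `N ^ 2 / (10 ^ 21 (C w) ^ 5 T r)` if each cell is sensitive to at
most `r` pairs on the average over the cells, for all families; this is the conjectured bound if `r`
is polylogarithmic. Cells whose contents is an arbitrary function of one of the two halves are not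
sensitive to any pair and do not count.

In the starting result EntanglementTradeoff the contents of a cell is computed by a protocol with one
player for each set, and a pair is entangled if both players write, together more than `b ≥ w`
bits. Here no protocols are needed; the sensitivity to a pair is a property of the contents of the
cell, and a cell may be sensitive to few pairs though every protocol for it entangles many.

Proof. See `BoundedDepthMemory` of this problem: the contents of a cell at a random family `F` is
computed from its contents at the three families in which the set `X i`, the set `Y j`, or both are
taken from another random family `F'`; this simulation of a query by a short protocol must fail, and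
if it fails, then the cell is sensitive to the pair at one of three pairs of families which are
obtained from `(F, F')` by an exchange of sets, and have the same distribution.
-/

set_option autoImplicit false

namespace Pool.Agent.Results.MP_f326ae_lc.SensitivePairs

open Pool.Agent.H284.PS.SI

/-- For all `N`, `w` and all query times `C * (T + op)` with `10 ^ 10 * (C * w) ^ 2 * T ≤ N` there are
`k` and `u` with `2 * k * u ≤ N` such that for every random data structure for families of `2 k`
subsets of a universe with `u` elements which lists the intersections in this time: if the expected
total number of pairs to which the cells are sensitive is at most `R` for all families, then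
`N ^ 2 ≤ 10 ^ 21 * (C * w) ^ 5 * T * R`. -/
theorem result (N w : ℕ) (C T : ℝ) (hw : 1 ≤ w) (hC : 1 ≤ C) (hT : 1 ≤ T)
    (hN : 10 ^ 10 * (C * w) ^ 2 * T ≤ N) :
    ∃ k u : ℕ, 2 * k * u ≤ N ∧ ∀ (S : ℕ) (Ω : Type) [Fintype Ω] (p : Ω → ℝ)
      (D : Ω → DS k u w S (Finset (Fin u))), SolvesListing p D C T N →
      ∀ R : ℝ, (∀ X Y X' Y' : Fin k → Finset (Fin u),
          ∑ ω, p ω * ∑ c, (((D ω).sensitive X Y X' Y' c).card : ℝ) ≤ R) →
        (N : ℝ) ^ 2 ≤ 10 ^ 21 * (C ^ 5 * w ^ 5) * T * R := by
  obtain ⟨k, u, h1, h2⟩ := listing N w C T hw hC hT hN
  exact ⟨k, u, h1, fun S Ω _ p D hD => (h2 S Ω p D hD).1⟩

end Pool.Agent.Results.MP_f326ae_lc.SensitivePairs
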